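import Mathlib

set_option autoImplicit false

/-! # Attachable vertices of forests

We prove the statement of Q1 for forests `G`: if `γ(G - u) ≥ γ(G)` then `{u}` is attachable in `G`. The vertices
different from `u` are dominated by a set `A`, found by a greedy choice from the leaves towards the roots,
together with a set `E` of vertices different from `u` with `|A| ≤ |E|` and disjoint closed neighbourhoods.
Over the closed neighbourhood of each element of `E` there are at least `γ(H)` elements of `D`. -/

namespace Pool.Agent.Results.MP_c351d3_co.Forests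

open Finset

/-- `x` lies in the closed neighbourhood of `v`. -/
def InN {V : Type} (G : SimpleGraph V) (x v : V) : Prop := x = v ∨ G.Adj x v

/-- Greedy choice in a graded forest: vertices with disjoint closed neighbourhoods. -/
lemma greedy {V : Type} [Fintype V] (G : SimpleGraph V) (l : V → ℕ)
    (h1 : ∀ u v, G.Adj u v → l u + 1 = l v ∨ l v + 1 = l u)
    (h2 : ∀ v u w, G.Adj u v → G.Adj w v → l u + 1 = l v → l w + 1 = l v → u = w) :
    ∀ (n : ℕ) (F : Finset V), F.card ≤ n →
      ∃ (A : Finset V) (E : Finset V), E ⊆ F ∧ A.card ≤ E.card ∧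
        (∀ e ∈ F, ∃ a ∈ A, InN G a e) ∧
        (∀ e ∈ E, ∀ f ∈ E, e ≠ f → ∀ a, InN G a e → InN G a f → False) := by
  classical
  intro n
  induction n with
  | zero =>
    intro F hF
    have hF0 : F = ∅ := by rwa [Nat.le_zero, card_eq_zero] at hF
    subst hF0
    exact ⟨∅, ∅, by simp, by simp, by simp, by simp⟩
  | succ n ih =>
    intro F hF
    rcases F.eq_empty_or_nonempty with hF0 | hne
    · subst hF0
      exact ⟨∅, ∅, by simp, by simp, by simp, by simp⟩
    obtain ⟨e, he, hmax⟩ := exists_max_image F (fun e => l e) hne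
    have hg : ∃ g, (g = e ∨ G.Adj g e) ∧ ∀ x, G.Adj x e → l x + 1 = l e → x = g := by
      by_cases hx : ∃ x, G.Adj x e ∧ l x + 1 = l e
      · obtain ⟨x, hx1, hx2⟩ := hx
        exact ⟨x, Or.inr hx1, fun y hy1 hy2 => h2 e y x hy1 hx1 hy2 hx2⟩
      · push Not at hx
        exact ⟨e, Or.inl rfl, fun x hx1 hx2 => absurd hx2 (hx x hx1)⟩
    obtain ⟨g, hg1, hg2⟩ := hg
    have hgp : InN G g e := hg1
    have claim : ∀ f ∈ F, ∀ a, InN G a e → InN G a f → InN G g f := by
      intro f hf a hae haf
      have hfm : l f ≤ l e := hmax f hf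
      have hcase : a = g ∨ a = e ∨ (G.Adj a e ∧ l e + 1 = l a) := by
        rcases hae with h | h
        · exact Or.inr (Or.inl h)
        · rcases h1 _ _ h with h3 | h3
          · exact Or.inl (hg2 a h h3)
          · exact Or.inr (Or.inr ⟨h, h3⟩)
      rcases hcase with rfl | rfl | ⟨ha1, ha2⟩
      · exact haf
      · rcases haf with h | h
        · rw [← h]; exact hgp
        · rcases h1 _ _ h with h3 | h3
          · omega
          · exact Or.inl (hg2 f h.symm h3).symm
      · rcases haf with h | h
        · rw [h] at ha2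
          omega
        · rcases h1 _ _ h with h3 | h3
          · omega
          · have : f = e := h2 a f e h.symm ha1.symm h3 ha2
            rw [this]; exact hgp
    set F' := F.filter fun f => ¬ InN G g f with hF'
    have heF' : e ∉ F' := by
      intro h
      exact (mem_filter.1 h).2 hgp
    have hlt : F'.card < F.card := by
      apply card_lt_card
      refine ⟨filter_subset _ _, fun h => heF' (h he)⟩
    obtain ⟨A, E, hEF, hAE, hA, hE⟩ := ih F' (by omega)
    have heE : e ∉ E := fun h => heF' (hEF h)
    refine ⟨insert g A, insert e E, ?_, ?_, ?_, ?_⟩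
    · intro f hf
      rcases mem_insert.1 hf with rfl | hf
      · exact he
      · exact (mem_filter.1 (hEF hf)).1
    · rw [card_insert_of_notMem heE]
      exact (card_insert_le _ _).trans (Nat.add_le_add_right hAE 1)
    · intro f hf
      by_cases hgf : InN G g f
      · exact ⟨g, mem_insert_self _ _, hgf⟩
      · obtain ⟨a, ha, ha'⟩ := hA f (mem_filter.2 ⟨hf, hgf⟩)
        exact ⟨a, mem_insert_of_mem ha, ha'⟩
    · intro f hf f' hf' hne a haf haf'
      rcases mem_insert.1 hf with h | h
      · rcases mem_insert.1 hf' with h' | h'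
        · exact hne (h.trans h'.symm)
        · rw [h] at haf
          have h3 := mem_filter.1 (hEF h')
          exact h3.2 (claim f' h3.1 a haf haf')
      · rcases mem_insert.1 hf' with h' | h'
        · rw [h'] at haf'
          have h3 := mem_filter.1 (hEF h)
          exact h3.2 (claim f h3.1 a haf' haf)
        · exact hE f h f' h' hne a haf haf'

/-- The depth function of a forest. -/
lemma depth {V : Type} (G : SimpleGraph V) (hG : G.IsAcyclic) :
    ∃ l : V → ℕ, (∀ u v, G.Adj u v → l u + 1 = l v ∨ l v + 1 = l u) ∧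
      ∀ v u w, G.Adj u v → G.Adj w v → l u + 1 = l v → l w + 1 = l v → u = w := by
  classical
  set r : V → V := fun v => (G.connectedComponentMk v).out with hr
  set l : V → ℕ := fun v => G.dist (r v) v with hl
  have hreach : ∀ v, G.Reachable (r v) v := fun v =>
    SimpleGraph.ConnectedComponent.exact (Quot.out_eq (G.connectedComponentMk v))
  have hrr : ∀ u v, G.Adj u v → r u = r v := by
    intro u v h
    have : G.connectedComponentMk u = G.connectedComponentMk v :=
      SimpleGraph.ConnectedComponent.sound h.reachable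
    rw [hr]
    simp only
    rw [this]
  refine ⟨l, ?_, ?_⟩
  · intro u v h
    have h3 := hG.dist_eq_dist_add_one_of_adj_of_reachable (r v) h
      ((hreach v).trans h.symm.reachable)
    have h4 : l u = G.dist (r v) u := by rw [hl]; simp only; rw [hrr u v h]
    have h5 : l v = G.dist (r v) v := rfl
    rcases h3 with h3 | h3
    · right; omega
    · left; omega
  · intro v u w hu hw hlu hlw
    have hlu' : G.dist (r v) u + 1 = G.dist (r v) v := by
      have : l v = G.dist (r v) v := rfl
      have h6 : l u = G.dist (r u) u := rfl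
      rw [hrr u v hu] at h6
      omega
    have hlw' : G.dist (r v) w + 1 = G.dist (r v) v := by
      have : l v = G.dist (r v) v := rfl
      have h6 : l w = G.dist (r w) w := rfl
      rw [hrr w v hw] at h6
      omega
    obtain ⟨p, hp⟩ := ((hreach v).trans hu.symm.reachable).exists_walk_length_eq_dist
    obtain ⟨q, hq⟩ := ((hreach v).trans hw.symm.reachable).exists_walk_length_eq_dist
    have hp' : (p.concat hu).IsPath :=
      (p.concat hu).isPath_of_length_eq_dist (by rw [SimpleGraph.Walk.length_concat, hp, hlu'])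
    have hq' : (q.concat hw).IsPath :=
      (q.concat hw).isPath_of_length_eq_dist (by rw [SimpleGraph.Walk.length_concat, hq, hlw'])
    have h7 := (hG.subsingleton_path (r v) v).elim ⟨_, hp'⟩ ⟨_, hq'⟩
    have h8 : p.concat hu = q.concat hw := congrArg Subtype.val h7
    have h9 := congrArg SimpleGraph.Walk.penultimate h8
    simpa using h9

/-- **Q1 for forests.** Let `G` be a finite forest and `u` a vertex with `γ(G - u) ≥ γ(G)` (every set `D'`, not
containing `u`, which dominates the other vertices, is at least as large as some dominating set of `G`). Then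
`{u}` is attachable in `G`: for every finite graph `H`, every set of vertices of `G □ H` which dominates
`(V(G) ∖ {u}) × V(H)` has at least `γ(G) γ(H)` elements (lower bounds `k` of `γ(G)` and `m` of `γ(H)`, as in the
frozen statement). -/
theorem result (V : Type) [Fintype V] (G : SimpleGraph V) (hG : G.IsAcyclic) (u : V)
    (hu : ∀ D' : Finset V, u ∉ D' →
        (∀ v : V, v ≠ u → v ∈ D' ∨ ∃ w ∈ D', G.Adj v w) →
        ∃ D : Finset V, (∀ v : V, v ∈ D ∨ ∃ w ∈ D, G.Adj v w) ∧ D.card ≤ D'.card) :
      ∀ (W : Type) [Fintype W] (H : SimpleGraph W) (k m : ℕ),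
        (∀ D : Finset V, (∀ v : V, v ∈ D ∨ ∃ w ∈ D, G.Adj v w) → k ≤ D.card) →
        (∀ D : Finset W, (∀ v : W, v ∈ D ∨ ∃ w ∈ D, H.Adj v w) → m ≤ D.card) →
        ∀ D : Finset (V × W),
          (∀ x : V × W, x.1 ≠ u → x ∈ D ∨ ∃ y ∈ D, (G.boxProd H).Adj x y) →
          k * m ≤ D.card := by
  classical
  intro W _ H k m hk hm D hD
  obtain ⟨l, h1, h2⟩ := depth G hG
  obtain ⟨A, E, hEF, hAE, hA, hE⟩ := greedy G l h1 h2 _ (univ.filter fun v => v ≠ u) le_rfl
  have hA' : ∀ v : V, v ≠ u → v ∈ A ∨ ∃ w ∈ A, G.Adj v w := by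
    intro v hv
    obtain ⟨a, ha, h⟩ := hA v (mem_filter.2 ⟨mem_univ _, hv⟩)
    rcases h with rfl | h
    · exact Or.inl ha
    · exact Or.inr ⟨a, ha, h.symm⟩
  have hkE : k ≤ E.card := by
    refine le_trans ?_ hAE
    by_cases huA : u ∈ A
    · refine hk A fun v => ?_
      by_cases hv : v = u
      · rw [hv]; exact Or.inl huA
      · exact hA' v hv
    · obtain ⟨D', hD', hc⟩ := hu A huA hA'
      exact (hk D' hD').trans hc
  set Q : V → Finset (V × W) := fun x => D.filter fun d => InN G d.1 x with hQ
  have hQm : ∀ x ∈ E, m ≤ (Q x).card := by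
    intro x hx
    have hxu : x ≠ u := (mem_filter.1 (hEF hx)).2
    refine (hm ((Q x).image Prod.snd) fun h => ?_).trans card_image_le
    rcases hD (x, h) hxu with h3 | ⟨y, hy, h3⟩
    · left
      exact mem_image.2 ⟨(x, h), mem_filter.2 ⟨h3, Or.inl rfl⟩, rfl⟩
    · rw [SimpleGraph.boxProd_adj] at h3
      rcases h3 with ⟨h4, h5⟩ | ⟨h4, h5⟩
      · left
        exact mem_image.2 ⟨y, mem_filter.2 ⟨hy, Or.inr h4.symm⟩, h5.symm⟩
      · right
        exact ⟨y.2, mem_image.2 ⟨y, mem_filter.2 ⟨hy, Or.inl h5.symm⟩, rfl⟩, h4⟩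
  have hsum : ∑ x ∈ E, (Q x).card ≤ D.card := by
    rw [← card_biUnion]
    · apply card_le_card
      intro d hd
      rw [mem_biUnion] at hd
      obtain ⟨i, _, hi⟩ := hd
      exact (mem_filter.1 hi).1
    · intro i hi j hj hij
      rw [Function.onFun, Finset.disjoint_left]
      intro d hd hd'
      exact hE i hi j hj hij d.1 (mem_filter.1 hd).2 (mem_filter.1 hd').2
  calc k * m ≤ E.card * m := Nat.mul_le_mul_right _ hkE
    _ = ∑ _x ∈ E, m := by rw [sum_const, smul_eq_mul]
    _ ≤ ∑ x ∈ E, (Q x).card := sum_le_sum hQm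
    _ ≤ D.card := hsum

end Pool.Agent.Results.MP_c351d3_co.Forests
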